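import Pool.Agent.Helper48.OD.St

/-!
# Project OD (MP_b3ce06_al): module K2G
-/

set_option autoImplicit false

namespace Pool.Agent.Helper32.OD

open Pool.Agent.Helper43.GD Pool.Agent.Helper48.OD

theorem hK2G (h1 : StDOD) : StK2G := by
  intro L A _ _ Q v hD
  obtain ⟨d1, d2⟩ := h1 L A Q v hD
  have hfin : Finite L := hD.cb.fin
  have hev : ∀ y ∈ Q.U, Ev y → Od (-y) := by
    intro y hy he
    rcases d1 y hy with h | h
    · exact absurd he (d2 y h).2
    · exact h
  have hnev : ∀ y ∈ Q.U, Ev y → ¬ Ev (-y) := fun y hy he => (d2 _ (hev y hy he)).2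
  have k1 : K2 Q 1 := by
    refine ⟨Q.U.one_mem, fun y hy he hg => ⟨fun _ => ?_, fun h => ?_⟩⟩
    · rw [one_mul]
      exact hg
    · rw [one_mul] at h
      exact absurd h (hnev y hy he)
  have kn : K2 Q (-1) := by
    refine ⟨Q.neg, fun y hy he hg => ⟨fun h => ?_, fun _ => ?_⟩⟩
    · rw [neg_one_mul] at h
      exact absurd h (hnev y hy he)
    · rw [neg_one_mul, neg_neg]
      exact hg
  have km : ∀ t₁ t₂ : Lˣ, K2 Q t₁ → K2 Q t₂ → K2 Q (t₁ * t₂) := by
    intro t₁ t₂ ht₁ ht₂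
    refine ⟨Q.U.mul_mem ht₁.1 ht₂.1, fun y hy he hg => ?_⟩
    have hm : t₂ * y ∈ Q.U := Q.U.mul_mem ht₂.1 hy
    rcases d1 _ hm with h | h
    · have h3 : Ev (-(t₂ * y)) := (d2 _ h).1
      have h4 := (ht₂.2 y hy he hg).2 h3
      obtain ⟨h5, h6⟩ := ht₁.2 _ (neg_mem Q hm) h3 h4
      rw [mul_neg, ← mul_assoc] at h5
      rw [mul_neg, neg_neg, ← mul_assoc] at h6
      exact ⟨h6, h5⟩
    · have h3 : Ev (t₂ * y) := by
        have := (d2 _ h).1
        rwa [neg_neg] at this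
      have h4 := (ht₂.2 y hy he hg).1 h3
      obtain ⟨h5, h6⟩ := ht₁.2 _ hm h3 h4
      rw [← mul_assoc] at h5 h6
      exact ⟨h5, h6⟩
  have kp : ∀ (t : Lˣ) (n : ℕ), K2 Q t → K2 Q (t ^ n) := by
    intro t n ht
    induction n with
    | zero =>
      rw [pow_zero]
      exact k1
    | succ n ih =>
      rw [pow_succ]
      exact km _ _ ih ht
  have k5 : ∀ a : Lˣ, K2 Q a → Od a → Q.In (1 + (a : L)) := by
    intro a ha ho
    have hg : Gd Q (-1) := by
      refine ⟨Q.neg, ?_⟩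
      have e : (1 : L) - ((-1 : Lˣ) : L) = 2 := by
        rw [Units.val_neg, Units.val_one]
        norm_num
      rw [e]
      exact hD.cb.in2
    have h3 := (ha.2 (-1) Q.neg Ev.neg_one hg).1 (by
      rw [mul_neg_one]
      exact (d2 a ho).1)
    have e : (1 : L) - ((a * -1 : Lˣ) : L) = 1 + (a : L) := by
      rw [mul_neg_one, Units.val_neg, sub_neg_eq_add]
    rw [← e]
    exact h3.2
  refine ⟨k1, kn, km, ?_, k5, ?_⟩
  · intro t ht
    have hf : IsOfFinOrder t := isOfFinOrder_of_finite t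
    have hp : 0 < orderOf t := hf.orderOf_pos
    have e : t⁻¹ = t ^ (orderOf t - 1) := by
      apply inv_eq_of_mul_eq_one_left
      rw [← pow_succ, Nat.sub_add_cancel hp, pow_orderOf_eq_one]
    rw [e]
    exact kp t _ ht
  · intro y hk he
    have ho := hev y hk.1 he
    have hk' : K2 Q (-y) := by
      have := km (-1) y kn hk
      rwa [neg_one_mul] at this
    refine ⟨hk.1, ?_⟩
    have h3 := k5 (-y) hk' ho
    rwa [Units.val_neg, ← sub_eq_add_neg] at h3

end Pool.Agent.Helper32.OD
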